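import Pool.Agent.QSX.StmtsG

/-!
QSX, row DFN: differences of points are points.
-/

namespace Pool.Agent.QSX.H76

open Matrix Finset Pool.Agent.QSX

theorem mexp_low {R : Type} [CommRing R] [Algebra ℝ R] {m : ℕ} {x : Matrix (Fin m) (Fin m) R}
    (hx : SU x) (i j : Fin m) (h : j < i) : mexp x i j = 0 := by
  unfold mexp
  rw [Matrix.sum_apply]
  refine Finset.sum_eq_zero fun k _ => ?_
  rw [Matrix.smul_apply, hx.pow_apply k i j (by rw [Fin.lt_def] at h; omega), smul_zero]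

theorem mexp_diag {R : Type} [CommRing R] [Algebra ℝ R] {m : ℕ} {x : Matrix (Fin m) (Fin m) R}
    (hx : SU x) (i : Fin m) : mexp x i i = 1 := by
  unfold mexp
  rw [Matrix.sum_apply, Finset.sum_eq_single 0]
  · rw [pow_zero, Nat.factorial_zero, Nat.cast_one, inv_one, one_smul, Matrix.one_apply_eq]
  · intro k _ hk
    rw [Matrix.smul_apply, hx.pow_apply k i i (by omega), smul_zero]
  · intro h
    exact absurd (Finset.mem_range.2 (Nat.succ_pos m)) h

theorem mat_apply (D : Dat) (p : D.Pt) (i j : Fin D.m) :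
    ((D.mat p : (Matrix (Fin D.m) (Fin D.m) ℝ)ˣ) : Matrix (Fin D.m) (Fin D.m) ℝ) i j
      = mexp (p.1 : Matrix (Fin D.m) (Fin D.m) ℝ) i j * Real.exp ((p.2 : Fin D.m → ℝ) j) := by
  have hx : SU (p.1 : Matrix (Fin D.m) (Fin D.m) ℝ) := D.su _ p.1.2
  unfold Dat.mat
  rw [Units.val_mul, ue_val hx]
  unfold ud
  exact Matrix.mul_diagonal _ _ _ _

theorem mat_low (D : Dat) (p : D.Pt) (i j : Fin D.m) (h : j < i) :
    ((D.mat p : (Matrix (Fin D.m) (Fin D.m) ℝ)ˣ) : Matrix (Fin D.m) (Fin D.m) ℝ) i j = 0 := by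
  rw [mat_apply, mexp_low (D.su _ p.1.2) i j h, zero_mul]

theorem mat_diag (D : Dat) (p : D.Pt) (i : Fin D.m) :
    ((D.mat p : (Matrix (Fin D.m) (Fin D.m) ℝ)ˣ) : Matrix (Fin D.m) (Fin D.m) ℝ) i i
      = Real.exp ((p.2 : Fin D.m → ℝ) i) := by
  rw [mat_apply, mexp_diag (D.su _ p.1.2) i, one_mul]

/-- **Row DFN**. -/
theorem dfn (hG : GrpStmt) : DfnStmt := by
  intro D p q
  rcases (hG D).1 with ⟨G, h⟩
  have hp : D.mat p ∈ G := (h _).2 ⟨p, rfl⟩
  have hq : D.mat q ∈ G := (h _).2 ⟨q, rfl⟩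
  rcases (h _).1 (G.mul_mem (G.inv_mem hp) hq) with ⟨r, hr⟩
  refine ⟨r, hr, fun i => ?_⟩
  have h1 : D.mat p * D.mat r = D.mat q := by
    rw [← hr, mul_inv_cancel_left]
  have h2 : ((D.mat p * D.mat r : (Matrix (Fin D.m) (Fin D.m) ℝ)ˣ) :
      Matrix (Fin D.m) (Fin D.m) ℝ) i i = Real.exp ((q.2 : Fin D.m → ℝ) i) := by
    rw [h1, mat_diag]
  rw [Units.val_mul, Matrix.mul_apply, Finset.sum_eq_single i] at h2
  · rw [mat_diag, mat_diag, ← Real.exp_add] at h2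
    have h3 := Real.exp_injective h2
    linarith
  · intro k _ hk
    rcases lt_or_gt_of_ne hk with hk | hk
    · rw [mat_low D p i k hk, zero_mul]
    · rw [mat_low D r k i hk, mul_zero]
  · intro hi
    exact absurd (Finset.mem_univ i) hi

end Pool.Agent.QSX.H76
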