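import Pool.Agent.QSX.StmtsE
import Pool.Agent.Helper76_QSX.DFN

/-!
QSX, row CHO: the points of `datSL k` are the positive definite matrices of determinant 1.
-/

namespace Pool.Agent.QSX.H76

open Matrix Finset Pool.Agent.QSX

/-- upper triangular with positive diagonal -/
def UP {m : ℕ} (s : Matrix (Fin m) (Fin m) ℝ) : Prop :=
  (∀ i j, j < i → s i j = 0) ∧ ∀ i, 0 < s i i

theorem UP.bt {m : ℕ} {s : Matrix (Fin m) (Fin m) ℝ} (h : UP s) : s.BlockTriangular id :=
  fun i j hij => h.1 i j hij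

theorem UP.det {m : ℕ} {s : Matrix (Fin m) (Fin m) ℝ} (h : UP s) : s.det = ∏ i, s i i :=
  det_of_isUpperTriangular h.bt

theorem UP.det_pos {m : ℕ} {s : Matrix (Fin m) (Fin m) ℝ} (h : UP s) : 0 < s.det := by
  rw [h.det]
  exact Finset.prod_pos fun i _ => h.2 i

/-- Cholesky decomposition with an upper triangular factor. -/
theorem chol {m : ℕ} {A : Matrix (Fin m) (Fin m) ℝ} (hA : A.PosDef) :
    ∃ s : Matrix (Fin m) (Fin m) ℝ, UP s ∧ s * sᵀ = A := by
  have hB : A⁻¹.PosDef := hA.inv
  have hinv : Invertible (LDL.lowerInv hB) := LDL.invertibleLowerInv hB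
  have hD : LDL.diag hB = LDL.lowerInv hB * A⁻¹ * (LDL.lowerInv hB)ᴴ :=
    LDL.diag_eq_lowerInv_conj hB
  have hWl : ∀ i j, i < j → LDL.lowerInv hB i j = 0 := fun i j h => LDL.lowerInv_triangular hB h
  have hunit : IsUnit (LDL.lowerInv hB) := isUnit_of_invertible _
  have hDp : (LDL.diag hB).PosDef := by
    rw [hD]
    exact hB.mul_mul_conjTranspose_same (Matrix.vecMul_injective_iff_isUnit.2 hunit)
  have hd : ∀ i, 0 < LDL.diagEntries hB i := by
    intro i
    have h1 := hDp.diag_pos (i := i)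
    rwa [LDL.diag, diagonal_apply_eq] at h1
  have hdet : (LDL.lowerInv hB).det ≠ 0 := ((Matrix.isUnit_iff_isUnit_det _).1 hunit).ne_zero
  have hdiag : ∀ i, LDL.lowerInv hB i i ≠ 0 := by
    rw [det_of_isLowerTriangular (LDL.lowerInv hB) (fun i j h => hWl i j h)] at hdet
    intro i
    exact (Finset.prod_ne_zero_iff.1 hdet) i (Finset.mem_univ i)
  generalize LDL.lowerInv hB = W at *
  rw [LDL.diag] at hD
  generalize LDL.diagEntries hB = d at *
  clear hDp
  rw [conjTranspose_eq_transpose_of_trivial] at hD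
  let e : Fin m → ℝ := fun i => (if 0 < W i i then 1 else -1) / Real.sqrt (d i)
  have he : ∀ i, e i * e i = (d i)⁻¹ := by
    intro i
    have h1 : Real.sqrt (d i) * Real.sqrt (d i) = d i := Real.mul_self_sqrt (hd i).le
    show (if 0 < W i i then (1 : ℝ) else -1) / Real.sqrt (d i) *
      ((if 0 < W i i then (1 : ℝ) else -1) / Real.sqrt (d i)) = (d i)⁻¹
    rw [div_mul_div_comm, h1]
    split_ifs
    · rw [mul_one, one_div]
    · rw [neg_mul_neg, mul_one, one_div]
  have hpos : ∀ i, 0 < W i i * e i := by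
    intro i
    have h1 : 0 < Real.sqrt (d i) := Real.sqrt_pos.2 (hd i)
    show 0 < W i i * ((if 0 < W i i then (1 : ℝ) else -1) / Real.sqrt (d i))
    rw [← mul_div_assoc]
    apply div_pos _ h1
    split_ifs with h2
    · rw [mul_one]; exact h2
    · have h3 : W i i < 0 := lt_of_le_of_ne (not_lt.1 h2) (hdiag i)
      linarith
  refine ⟨Wᵀ * diagonal e, ⟨fun i j h => ?_, fun i => ?_⟩, ?_⟩
  · rw [mul_diagonal, transpose_apply, hWl j i h, zero_mul]
  · rw [mul_diagonal, transpose_apply]
    exact hpos i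
  · rw [transpose_mul, diagonal_transpose, transpose_transpose, Matrix.mul_assoc,
      ← Matrix.mul_assoc (diagonal e), diagonal_mul_diagonal]
    have h1 : (fun i => e i * e i) = fun i => (d i)⁻¹ := funext he
    rw [h1]
    have h2 : diagonal d * diagonal (fun i => (d i)⁻¹) = 1 := by
      rw [diagonal_mul_diagonal, ← diagonal_one]
      congr 1
      funext i
      exact mul_inv_cancel₀ (hd i).ne'
    have h3 : A⁻¹ * (Wᵀ * (diagonal (fun i => (d i)⁻¹) * W)) = 1 := by
      have h4 : W * (A⁻¹ * (Wᵀ * (diagonal (fun i => (d i)⁻¹) * W))) = W := by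
        rw [← Matrix.mul_assoc Wᵀ, ← Matrix.mul_assoc A⁻¹, ← Matrix.mul_assoc A⁻¹,
          ← Matrix.mul_assoc W, ← Matrix.mul_assoc W, ← Matrix.mul_assoc W, ← hD, h2,
          Matrix.one_mul]
      have h5 : W⁻¹ * (W * (A⁻¹ * (Wᵀ * (diagonal (fun i => (d i)⁻¹) * W)))) = W⁻¹ * W := by
        rw [h4]
      rwa [Matrix.inv_mul_cancel_left_of_invertible, Matrix.inv_mul_of_invertible] at h5
    have h6 : IsUnit A.det := (Matrix.isUnit_iff_isUnit_det _).1 hA.isUnit
    have h7 : A * (A⁻¹ * (Wᵀ * (diagonal (fun i => (d i)⁻¹) * W))) = A * 1 := by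
      rw [h3]
    rwa [Matrix.mul_nonsing_inv_cancel_left _ _ h6, Matrix.mul_one] at h7

/-- uniqueness of the factor. -/
theorem UP.unique {m : ℕ} {s t : Matrix (Fin m) (Fin m) ℝ} (hs : UP s) (ht : UP t)
    (h : s * sᵀ = t * tᵀ) : s = t := by
  have hdt : IsUnit t.det := isUnit_iff_ne_zero.2 ht.det_pos.ne'
  have hit : Invertible t := t.invertibleOfIsUnitDet hdt
  have hr : (t⁻¹ * s).BlockTriangular id :=
    (blockTriangular_inv_of_blockTriangular ht.bt).mul hs.bt
  have htr : t * (t⁻¹ * s) = s := Matrix.mul_nonsing_inv_cancel_left _ _ hdt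
  have hrr : (t⁻¹ * s) * (t⁻¹ * s)ᵀ = 1 := by
    rw [transpose_mul, Matrix.mul_assoc, ← Matrix.mul_assoc s, h, ← Matrix.mul_assoc,
      ← Matrix.mul_assoc, Matrix.nonsing_inv_mul _ hdt, Matrix.one_mul, ← transpose_mul,
      Matrix.nonsing_inv_mul _ hdt, transpose_one]
  generalize t⁻¹ * s = r at *
  have hir : Invertible r := invertibleOfRightInverse r rᵀ hrr
  have hrinv : r⁻¹ = rᵀ := Matrix.inv_eq_right_inv hrr
  have hrt : (rᵀ).BlockTriangular id := by
    rw [← hrinv]
    exact blockTriangular_inv_of_blockTriangular hr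
  have h0 : ∀ i j, i ≠ j → r i j = 0 := by
    intro i j hij
    rcases lt_or_gt_of_ne hij with h1 | h1
    · exact hrt (i := j) (j := i) h1
    · exact hr (i := i) (j := j) h1
  have h1 : ∀ i, r i i * r i i = 1 := by
    intro i
    have h2 := congrFun (congrFun hrr i) i
    rw [Matrix.mul_apply, Finset.sum_eq_single i, transpose_apply, Matrix.one_apply_eq] at h2
    · exact h2
    · intro j _ hj
      rw [h0 i j hj.symm, zero_mul]
    · intro h3
      exact absurd (Finset.mem_univ i) h3
  have h2 : ∀ i, 0 < r i i := by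
    intro i
    have h3 := congrFun (congrFun htr i) i
    rw [Matrix.mul_apply, Finset.sum_eq_single i] at h3
    · have h4 := hs.2 i
      rw [← h3] at h4
      exact (pos_iff_pos_of_mul_pos h4).1 (ht.2 i)
    · intro j _ hj
      rw [h0 j i hj, mul_zero]
    · intro h3
      exact absurd (Finset.mem_univ i) h3
  have h3 : r = 1 := by
    ext i j
    by_cases hij : i = j
    · rw [hij, Matrix.one_apply_eq]
      nlinarith [h1 j, h2 j]
    · rw [h0 i j hij, Matrix.one_apply_ne hij]
  rw [h3, Matrix.mul_one] at htr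
  exact htr.symm

theorem mat_UP (D : Dat) (p : D.Pt) :
    UP ((D.mat p : (Matrix (Fin D.m) (Fin D.m) ℝ)ˣ) : Matrix (Fin D.m) (Fin D.m) ℝ) :=
  ⟨fun i j h => mat_low D p i j h, fun i => by rw [mat_diag]; exact Real.exp_pos _⟩

theorem mat_det (D : Dat) (p : D.Pt) :
    ((D.mat p : (Matrix (Fin D.m) (Fin D.m) ℝ)ˣ) : Matrix (Fin D.m) (Fin D.m) ℝ).det
      = Real.exp (∑ i, (p.2 : Fin D.m → ℝ) i) := by
  rw [(mat_UP D p).det, Real.exp_sum]
  exact Finset.prod_congr rfl fun i _ => mat_diag D p i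

/-- every upper triangular matrix of determinant 1 with positive diagonal is a point. -/
theorem exists_pt (hL : LgmStmt) {k : ℕ} {s : Matrix (Fin k) (Fin k) ℝ} (hs : UP s)
    (hdet : s.det = 1) : ∃ p : (datSL k).Pt, Units.val ((datSL k).mat p) = s := by
  let c : Fin k → ℝ := fun i => Real.log (s i i)
  have hc : ∑ i, c i = 0 := by
    rw [hs.det] at hdet
    show ∑ i, Real.log (s i i) = 0
    rw [← Real.log_prod (fun i _ => (hs.2 i).ne'), hdet, Real.log_one]
  let g : Matrix (Fin k) (Fin k) ℝ := s * diagonal fun i => Real.exp (-c i)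
  have hg : UU g := by
    intro i j hij
    rw [Matrix.sub_apply]
    show (s * diagonal fun i => Real.exp (-c i)) i j - (1 : Matrix (Fin k) (Fin k) ℝ) i j = 0
    rw [mul_diagonal]
    rcases lt_or_eq_of_le hij with h1 | h1
    · rw [hs.1 i j h1, zero_mul, Matrix.one_apply_ne (ne_of_gt h1), sub_zero]
    · rw [h1, Matrix.one_apply_eq]
      show s i i * Real.exp (-Real.log (s i i)) - 1 = 0
      rw [Real.exp_neg, Real.exp_log (hs.2 i), mul_inv_cancel₀ (hs.2 i).ne', sub_self]
  rcases (hL ℝ k).2 g hg with ⟨h1, h2⟩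
  refine ⟨(⟨mlog g, h1⟩, ⟨c, hc⟩), ?_⟩
  unfold Dat.mat
  rw [Units.val_mul]
  show ((ue (mlog g) : (Matrix (Fin k) (Fin k) ℝ)ˣ) : Matrix (Fin k) (Fin k) ℝ) *
    (diagonal fun i => Real.exp (c i)) = s
  rw [ue_val h1, h2]
  show (s * diagonal fun i => Real.exp (-c i)) * (diagonal fun i => Real.exp (c i)) = s
  rw [Matrix.mul_assoc, diagonal_mul_diagonal]
  have h3 : (fun i => Real.exp (-c i) * Real.exp (c i)) = fun _ => (1 : ℝ) := by
    funext i
    rw [← Real.exp_add, neg_add_cancel, Real.exp_zero]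
  rw [h3, diagonal_one, Matrix.mul_one]

/-- **Row CHO**. -/
theorem cho (hL : LgmStmt) (hM : MijStmt) : ChoStmt := by
  intro k
  constructor
  · intro p
    have hu := mat_UP (datSL k) p
    have hd := mat_det (datSL k) p
    have hs : ∑ i, (p.2 : Fin (datSL k).m → ℝ) i = 0 := p.2.2
    have hd1 : (Units.val ((datSL k).mat p)).det = 1 := by
      rw [hd, hs, Real.exp_zero]
    constructor
    · have h1 := Matrix.PosDef.mul_conjTranspose_self (Units.val ((datSL k).mat p))
        (Matrix.vecMul_injective_iff_isUnit.2 (Units.isUnit _))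
      rwa [conjTranspose_eq_transpose_of_trivial] at h1
    · unfold Dat.pos
      rw [det_mul, det_transpose, hd1, mul_one]
  · intro A hA hdet
    rcases chol hA with ⟨s, hs, hsA⟩
    have hsd : s.det = 1 := by
      have h1 : s.det * s.det = 1 := by
        rw [← hdet, ← hsA, det_mul, det_transpose]
      have h2 := hs.det_pos
      nlinarith
    have hex : ∃ p : (datSL k).Pt, Units.val ((datSL k).mat p) = s :=
      exists_pt (k := k) hL hs hsd
    rcases hex with ⟨p, hp⟩
    refine ⟨p, ?_, ?_⟩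
    · show Units.val ((datSL k).mat p) * (Units.val ((datSL k).mat p))ᵀ = A
      rw [hp, hsA]
    · intro q hq
      apply hM (datSL k)
      apply Units.ext
      apply (mat_UP (datSL k) q).unique (mat_UP (datSL k) p)
      have h1 : Units.val ((datSL k).mat p) * (Units.val ((datSL k).mat p))ᵀ = A := by
        rw [hp, hsA]
      exact hq.trans h1.symm

end Pool.Agent.QSX.H76
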